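import Mathlib

/-!
# Recursive degree-bounded bipartitions of highly recursive graphs: star-free cases
-/

set_option autoImplicit false

namespace Pool.Agent.Results.MP_fbc7b8_lc.StarFree

/-- `W ⊆ ℕ` is recursive. -/
def RecSet (W : Set ℕ) : Prop := ComputablePred (fun x => x ∈ W)

/-- The degree of `x` in the set `W`: the number of neighbours of `x` that lie in `W`. -/
noncomputable def degIn (E : ℕ → ℕ → Prop) (W : Set ℕ) (x : ℕ) : ℕ := {y | y ∈ W ∧ E x y}.ncard

/-- `(V, E)` is a highly recursive graph: simple, undirected, `V` and `E` recursive, all degrees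
finite and the degree function recursive. -/
structure HighlyRecursive (V : Set ℕ) (E : ℕ → ℕ → Prop) : Prop where
  symm : ∀ x y, E x y → E y x
  irrefl : ∀ x, ¬ E x x
  mem : ∀ x y, E x y → x ∈ V ∧ y ∈ V
  recV : RecSet V
  recE : ComputablePred (fun p : ℕ × ℕ => E p.1 p.2)
  locFin : ∀ x, {y | E x y}.Finite
  recDeg : Computable (fun x => degIn E V x)

/-- No vertex has `k` pairwise nonadjacent (distinct) neighbours. -/
def StarFree (E : ℕ → ℕ → Prop) (k : ℕ) : Prop :=
  ∀ x : ℕ, ∀ S : Finset ℕ, (∀ y ∈ S, E x y) → (∀ y ∈ S, ∀ z ∈ S, ¬ E y z) → S.card < k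

/-- The vertex set `V` has a partition into two recursive sets with all induced degrees at most
`n1` in the first and at most `n2` in the second. -/
def Bip (V : Set ℕ) (E : ℕ → ℕ → Prop) (n1 n2 : ℕ) : Prop :=
  ∃ V1 V2 : Set ℕ, RecSet V1 ∧ RecSet V2 ∧ V1 ∪ V2 = V ∧ Disjoint V1 V2 ∧
    (∀ x ∈ V1, degIn E V1 x ≤ n1) ∧ (∀ x ∈ V2, degIn E V2 x ≤ n2)

/-- sanity check: the edgeless graph on all natural numbers is highly recursive -/
theorem highlyRecursive_edgeless : HighlyRecursive Set.univ (fun _ _ => False) where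
  symm := fun _ _ h => h
  irrefl := fun _ h => h
  mem := fun _ _ h => h.elim
  recV := ⟨fun _ => instDecidableTrue, (Computable.const true).of_eq (fun x => by simp)⟩
  recE := ⟨fun _ => instDecidableFalse, (Computable.const false).of_eq (fun x => by simp)⟩
  locFin := fun x => by simp
  recDeg := (Computable.const 0).of_eq (fun x => by simp [degIn])

/-- the greedy decision for the vertex `L.length`, given the decisions `L` for the smaller ones -/
def G (W : ℕ → Bool) (Eb : ℕ → ℕ → Bool) (L : List Bool) : Bool :=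
  W L.length && (Nat.rec true (fun u IH => IH && !(Eb u L.length && L.getD u false)) L.length : Bool)

def lst (W : ℕ → Bool) (Eb : ℕ → ℕ → Bool) : ℕ → List Bool
  | 0 => []
  | n + 1 => lst W Eb n ++ [G W Eb (lst W Eb n)]

def mis (W : ℕ → Bool) (Eb : ℕ → ℕ → Bool) (v : ℕ) : Bool := G W Eb (lst W Eb v)

theorem lst_eq (W : ℕ → Bool) (Eb : ℕ → ℕ → Bool) (n : ℕ) :
    lst W Eb n = (List.range n).map (mis W Eb) := by
  induction n with
  | zero => rfl
  | succ n ih =>
    rw [List.range_succ, List.map_append, ← ih]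
    rfl

theorem G_comp (W : ℕ → Bool) (hW : Computable W) (Eb : ℕ → ℕ → Bool) (hE : Computable₂ Eb) :
    Computable (G W Eb) := by
  unfold G
  refine Primrec.and.to_comp.comp (hW.comp Computable.list_length) ?_
  refine Computable.nat_rec (f := fun L : List Bool => L.length) (g := fun _ => true)
    (h := fun (L : List Bool) (p : ℕ × Bool) => p.2 && !(Eb p.1 L.length && L.getD p.1 false))
    Computable.list_length (Computable.const true) ?_
  refine Primrec.and.to_comp.comp (Computable.snd.comp Computable.snd) ?_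
  refine Primrec.not.to_comp.comp ?_
  refine Primrec.and.to_comp.comp ?_ ?_
  · exact hE.comp (Computable.fst.comp Computable.snd) (Computable.list_length.comp Computable.fst)
  · exact (Primrec.list_getD false).to_comp.comp Computable.fst
      (Computable.fst.comp Computable.snd)

theorem mis_comp (W : ℕ → Bool) (hW : Computable W) (Eb : ℕ → ℕ → Bool) (hE : Computable₂ Eb) :
    Computable (mis W Eb) := by
  have h : Computable₂ (fun (_ : Unit) (n : ℕ) => mis W Eb n) := by
    refine Computable.nat_strong_rec (fun (_ : Unit) (n : ℕ) => mis W Eb n)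
      (g := fun (_ : Unit) (L : List Bool) => some (G W Eb L)) ?_ ?_
    · exact Computable.option_some.comp ((G_comp W hW Eb hE).comp Computable.snd)
    · intro _ n
      have := lst_eq W Eb n
      simp only [← this]
      rfl
  exact h.comp (Computable.const ()) Computable.id

theorem rec_all (p : ℕ → Bool) (n : ℕ) :
    (Nat.rec true (fun u IH => IH && !(p u)) n : Bool) = true ↔ ∀ u < n, p u = false := by
  induction n with
  | zero => simp
  | succ n ih =>
    simp only [Bool.and_eq_true, Bool.not_eq_true', ih]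
    constructor
    · rintro ⟨h1, h2⟩ u hu
      rcases Nat.lt_succ_iff_lt_or_eq.1 hu with h | h
      · exact h1 u h
      · rw [h]; exact h2
    · intro h
      exact ⟨fun u hu => h u (by omega), h n (by omega)⟩

theorem mis_iff (W : ℕ → Bool) (Eb : ℕ → ℕ → Bool) (v : ℕ) :
    mis W Eb v = true ↔ W v = true ∧ ∀ u < v, ¬ (Eb u v = true ∧ mis W Eb u = true) := by
  have hl : (lst W Eb v).length = v := by rw [lst_eq]; simp
  have hg : ∀ u < v, (lst W Eb v).getD u false = mis W Eb u := by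
    intro u hu
    rw [lst_eq]
    simp [List.getD, hu]
  have h0 : mis W Eb v = G W Eb (lst W Eb v) := rfl
  rw [h0]
  unfold G
  rw [hl, Bool.and_eq_true, rec_all (fun u => Eb u v && (lst W Eb v).getD u false) v]
  constructor
  · rintro ⟨h1, h2⟩
    refine ⟨h1, fun u hu => ?_⟩
    have := h2 u hu
    rw [hg u hu] at this
    intro h3
    rw [h3.1, h3.2] at this
    simp at this
  · rintro ⟨h1, h2⟩
    refine ⟨h1, fun u hu => ?_⟩
    rw [hg u hu]
    have := h2 u hu
    cases hh : Eb u v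
    · simp
    · cases hk : mis W Eb u
      · simp
      · exact absurd ⟨hh, hk⟩ this

/-- Every recursive set of vertices of a recursive graph has a recursive maximal independent
subset. -/
theorem exists_mis (E : ℕ → ℕ → Prop) (hs : ∀ x y, E x y → E y x) (hi : ∀ x, ¬ E x x)
    (hE : ComputablePred (fun p : ℕ × ℕ => E p.1 p.2)) (W : Set ℕ) (hW : RecSet W) :
    ∃ M : Set ℕ, RecSet M ∧ M ⊆ W ∧ (∀ x ∈ M, ∀ y ∈ M, ¬ E x y) ∧
      ∀ x ∈ W, x ∉ M → ∃ y ∈ M, E x y := by
  obtain ⟨dW, cW⟩ := hW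
  obtain ⟨dE, cE⟩ := hE
  set Wb : ℕ → Bool := fun x => decide (x ∈ W) with hWb
  set Eb : ℕ → ℕ → Bool := fun x y => @decide (E x y) (dE (x, y)) with hEb
  have cEb : Computable₂ Eb := by
    have h : Computable (fun p : ℕ × ℕ => Eb p.1 p.2) := cE
    exact h
  have hWiff : ∀ x, Wb x = true ↔ x ∈ W := by intro x; simp [hWb]
  have hEiff : ∀ x y, Eb x y = true ↔ E x y := by
    intro x y
    simp only [hEb]
    exact @decide_eq_true_iff (E x y) (dE (x, y))
  have hc := mis_comp Wb cW Eb cEb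
  refine ⟨{x | mis Wb Eb x = true}, ?_, ?_, ?_, ?_⟩
  · refine ⟨fun x => by simp only [Set.mem_ofPred_eq]; infer_instance, ?_⟩
    convert hc using 2 with x
    simp
  · intro x hx
    exact (hWiff x).1 ((mis_iff Wb Eb x).1 hx).1
  · intro x hx y hy hxy
    rcases lt_trichotomy x y with h | h | h
    · exact ((mis_iff Wb Eb y).1 hy).2 x h ⟨(hEiff _ _).2 hxy, hx⟩
    · subst h; exact hi x hxy
    · exact ((mis_iff Wb Eb x).1 hx).2 y h ⟨(hEiff _ _).2 (hs _ _ hxy), hy⟩
  · intro x hxW hxM
    by_contra hno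
    push Not at hno
    apply hxM
    show mis Wb Eb x = true
    rw [mis_iff]
    refine ⟨(hWiff x).2 hxW, ?_⟩
    rintro u - ⟨h1, h2⟩
    exact hno u h2 (hs _ _ ((hEiff _ _).1 h1))

theorem degIn_union (E : ℕ → ℕ → Prop) (A B : Set ℕ) (x : ℕ) (hf : {y | E x y}.Finite)
    (hd : Disjoint A B) : degIn E (A ∪ B) x = degIn E A x + degIn E B x := by
  unfold degIn
  have h1 : {y | y ∈ A ∪ B ∧ E x y} = {y | y ∈ A ∧ E x y} ∪ {y | y ∈ B ∧ E x y} := by
    ext y; simp only [Set.mem_ofPred_eq, Set.mem_union]; tauto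
  have h2 : Disjoint {y | y ∈ A ∧ E x y} {y | y ∈ B ∧ E x y} := by
    rw [Set.disjoint_left] at hd ⊢
    rintro y ⟨h2, _⟩ ⟨h3, _⟩
    exact hd h2 h3
  rw [h1, Set.ncard_union_eq h2 (hf.subset (fun y hy => hy.2)) (hf.subset (fun y hy => hy.2))]

theorem recSet_union {A B : Set ℕ} (hA : RecSet A) (hB : RecSet B) : RecSet (A ∪ B) := by
  classical
  obtain ⟨dA, cA⟩ := hA
  obtain ⟨dB, cB⟩ := hB
  refine ⟨fun x => Classical.propDecidable _, ?_⟩
  refine (Primrec.or.to_comp.comp cA cB).of_eq (fun x => ?_)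
  simp [Set.mem_union]

theorem recSet_diff {A B : Set ℕ} (hA : RecSet A) (hB : RecSet B) : RecSet (A \ B) := by
  classical
  obtain ⟨dA, cA⟩ := hA
  obtain ⟨dB, cB⟩ := hB
  refine ⟨fun x => Classical.propDecidable _, ?_⟩
  refine (Primrec.and.to_comp.comp cA (Primrec.not.to_comp.comp cB)).of_eq (fun x => ?_)
  simp [Set.mem_sdiff]

theorem layers (V : Set ℕ) (E : ℕ → ℕ → Prop) (hG : HighlyRecursive V E) (t : ℕ)
    (ht : StarFree E (t + 1)) (a : ℕ) :
    ∃ V1 V2 : Set ℕ, RecSet V1 ∧ RecSet V2 ∧ V1 ∪ V2 = V ∧ Disjoint V1 V2 ∧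
      (∀ x, degIn E V1 x ≤ t * a) ∧ (∀ x ∈ V1, degIn E V1 x + t ≤ t * a) ∧
      (∀ x ∈ V2, a ≤ degIn E V1 x) := by
  induction a with
  | zero =>
    refine ⟨∅, V, ?_, hG.recV, by simp, by simp, ?_, by simp, by simp⟩
    · refine ⟨fun _ => instDecidableFalse, ?_⟩
      exact (Computable.const false).of_eq (fun x => by simp)
    · intro x; simp [degIn]
  | succ a ih =>
    obtain ⟨V1, V2, h1, h2, h3, h4, h5, h6, h7⟩ := ih
    obtain ⟨M, m1, m2, m3, m4⟩ := exists_mis E hG.symm hG.irrefl hG.recE V2 h2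
    have hdM : Disjoint V1 M := Set.disjoint_of_subset_right m2 h4
    have hMle : ∀ x, degIn E M x ≤ t := by
      intro x
      have hfin : {y | y ∈ M ∧ E x y}.Finite := (hG.locFin x).subset (fun y hy => hy.2)
      have h := ht x hfin.toFinset (fun y hy => by
        rw [Set.Finite.mem_toFinset] at hy; exact hy.2) (fun y hy z hz => by
        rw [Set.Finite.mem_toFinset] at hy hz; exact m3 y hy.1 z hz.1)
      unfold degIn
      rw [Set.ncard_eq_toFinset_card _ hfin]
      omega
    have hM0 : ∀ x ∈ M, degIn E M x = 0 := by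
      intro x hx
      unfold degIn
      have : {y | y ∈ M ∧ E x y} = ∅ := by
        ext y
        simp only [Set.mem_ofPred_eq, Set.mem_empty_iff_false, iff_false, not_and]
        exact fun hy => m3 x hx y hy
      rw [this]; simp
    refine ⟨V1 ∪ M, V2 \ M, ?_, ?_, ?_, ?_, ?_, ?_, ?_⟩
    · exact recSet_union h1 m1
    · exact recSet_diff h2 m1
    · rw [← h3]
      ext x
      simp only [Set.mem_union, Set.mem_sdiff]
      constructor
      · rintro ((h | h) | h)
        · exact Or.inl h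
        · exact Or.inr (m2 h)
        · exact Or.inr h.1
      · rintro (h | h)
        · exact Or.inl (Or.inl h)
        · by_cases hx : x ∈ M
          · exact Or.inl (Or.inr hx)
          · exact Or.inr ⟨h, hx⟩
    · rw [Set.disjoint_left] at h4 ⊢
      rintro x (h | h) ⟨h', h''⟩
      · exact h4 h h'
      · exact h'' h
    · intro x
      rw [degIn_union E V1 M x (hG.locFin x) hdM]
      have := h5 x
      have := hMle x
      have : t * (a + 1) = t * a + t := by ring
      omega
    · rintro x (hx | hx)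
      · rw [degIn_union E V1 M x (hG.locFin x) hdM]
        have := h6 x hx
        have := hMle x
        have : t * (a + 1) = t * a + t := by ring
        omega
      · rw [degIn_union E V1 M x (hG.locFin x) hdM, hM0 x hx]
        have := h5 x
        have : t * (a + 1) = t * a + t := by ring
        omega
    · rintro x ⟨hx, hxM⟩
      rw [degIn_union E V1 M x (hG.locFin x) hdM]
      have := h7 x hx
      obtain ⟨y, hy, hxy⟩ := m4 x hx hxM
      have : 0 < degIn E M x := by
        unfold degIn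
        rw [Set.ncard_pos ((hG.locFin x).subset (fun y hy => hy.2))]
        exact ⟨y, hy, hxy⟩
      omega

/-- one-sided form -/
theorem one_sided (V : Set ℕ) (E : ℕ → ℕ → Prop) (hG : HighlyRecursive V E) (t Δ n1 n2 : ℕ)
    (ht : StarFree E (t + 1)) (hΔ : ∀ x ∈ V, degIn E V x ≤ Δ) (hn : n1 + n2 = Δ + 1)
    (hc : t * (n1 - 2) ≤ n1) :
    ∃ V1 V2 : Set ℕ, RecSet V1 ∧ RecSet V2 ∧ V1 ∪ V2 = V ∧ Disjoint V1 V2 ∧
      (∀ x ∈ V1, degIn E V1 x ≤ n1) ∧ (∀ x ∈ V2, degIn E V2 x ≤ n2) := by
  obtain ⟨V1, V2, h1, h2, h3, h4, h5, h6, h7⟩ := layers V E hG t ht (n1 - 1)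
  refine ⟨V1, V2, h1, h2, h3, h4, ?_, ?_⟩
  · intro x hx
    have h := h6 x hx
    rcases Nat.lt_or_ge n1 2 with h' | h'
    · have : n1 - 1 = 0 := by omega
      rw [this] at h
      omega
    · have e : t * (n1 - 1) = t * (n1 - 2) + t := by
        obtain ⟨k, rfl⟩ := Nat.exists_eq_add_of_le h'
        have e1 : 2 + k - 1 = k + 1 := by omega
        have e2 : 2 + k - 2 = k := by omega
        rw [e1, e2]; ring
      omega
  · intro x hx
    have h := h7 x hx
    have hxV : x ∈ V := by rw [← h3]; exact Or.inr hx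
    have h8 := hΔ x hxV
    rw [← h3, degIn_union E V1 V2 x (hG.locFin x) h4] at h8
    omega

theorem general (V : Set ℕ) (E : ℕ → ℕ → Prop) (hG : HighlyRecursive V E) (t Δ n1 n2 : ℕ)
    (ht : StarFree E (t + 1)) (hΔ : ∀ x ∈ V, degIn E V x ≤ Δ) (hn : n1 + n2 = Δ + 1)
    (hc : t * (min n1 n2 - 2) ≤ min n1 n2) : Bip V E n1 n2 := by
  rcases le_total n1 n2 with h | h
  · rw [min_eq_left h] at hc
    exact one_sided V E hG t Δ n1 n2 ht hΔ hn hc
  · rw [min_eq_right h] at hc
    obtain ⟨V1, V2, h1, h2, h3, h4, h5, h6⟩ :=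
      one_sided V E hG t Δ n2 n1 ht hΔ (by omega) hc
    exact ⟨V2, V1, h2, h1, by rw [Set.union_comm]; exact h3, h4.symm, h6, h5⟩

theorem starFree_deg (V : Set ℕ) (E : ℕ → ℕ → Prop) (hG : HighlyRecursive V E) (Δ : ℕ)
    (hΔ : ∀ x ∈ V, degIn E V x ≤ Δ) : StarFree E (Δ + 1) := by
  intro x S hS _
  rcases S.eq_empty_or_nonempty with h | ⟨y, hy⟩
  · rw [h]; simp
  · have hx : x ∈ V := (hG.mem x y (hS y hy)).1
    have h1 := hΔ x hx
    have hfin : {y | y ∈ V ∧ E x y}.Finite := (hG.locFin x).subset (fun y hy => hy.2)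
    have h2 : S.card ≤ degIn E V x := by
      unfold degIn
      rw [← Set.ncard_coe_finset S]
      apply Set.ncard_le_ncard _ hfin
      intro z hz
      exact ⟨(hG.mem x z (hS z hz)).2, hS z hz⟩
    omega

/-- **Star-free cases of the recursive bipartition problem.** -/
theorem result (V : Set ℕ) (E : ℕ → ℕ → Prop) (hG : HighlyRecursive V E) (Δ n1 n2 : ℕ)
    (hΔ : ∀ x ∈ V, degIn E V x ≤ Δ) (hn : n1 + n2 = Δ + 1) :
    (min n1 n2 ≤ 2 ∨ Δ ≤ 4 → Bip V E n1 n2) ∧
    (StarFree E 4 → min n1 n2 ≤ 3 ∨ Δ ≤ 6 → Bip V E n1 n2) ∧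
    (StarFree E 3 → min n1 n2 ≤ 4 ∨ Δ ≤ 8 → Bip V E n1 n2) ∧
    (∀ t : ℕ, StarFree E (t + 1) → t * (min n1 n2 - 2) ≤ min n1 n2 → Bip V E n1 n2) := by
  refine ⟨?_, ?_, ?_, ?_⟩
  · intro h
    have h2 : min n1 n2 ≤ 2 := by omega
    refine general V E hG Δ Δ n1 n2 (starFree_deg V E hG Δ hΔ) hΔ hn ?_
    have : min n1 n2 - 2 = 0 := by omega
    rw [this]; simp
  · intro h4 h
    have h2 : min n1 n2 ≤ 3 := by omega
    exact general V E hG 3 Δ n1 n2 h4 hΔ hn (by omega)
  · intro h3 h
    have h2 : min n1 n2 ≤ 4 := by omega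
    exact general V E hG 2 Δ n1 n2 h3 hΔ hn (by omega)
  · intro t ht hc
    exact general V E hG t Δ n1 n2 ht hΔ hn hc

end Pool.Agent.Results.MP_fbc7b8_lc.StarFree
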